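import Pool.Agent.KDT.StmtsK

/-!
# KDT (MP_160b6c_nt), row VGT: very good, one field is enough
-/

set_option autoImplicit false

namespace Pool.Agent.KDT.H45

open Polynomial Pool.Agent.KDT Pool.Agent.SZT

theorem tau_map {K L : Type} [Field K] [Field L] (g : K →+* L) (f : K[X]) (a b : K)
    (u : Fin 4 → K) :
    tau (f.map g) (g a) (g b) (fun i => g (u i)) = g (tau f a b u) := by
  simp only [tau, GG, Polynomial.coeff_map, map_add, map_sub, map_mul, map_pow]

/-- Row VGT. -/
theorem vgt : VgtStatement := by
  intro K E _ _ _ ψ f A B hf hG h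
  refine ⟨hG, ?_⟩
  intro E' _ φ a b ha hb hab htau
  let _i1 : Algebra K E' := φ.toAlgebra
  let _i2 : Algebra K E := ψ.toAlgebra
  have hφ : algebraMap K E' = φ := rfl
  have hψ : algebraMap K E = ψ := rfl
  have hint : ∀ x ∈ ({a, b} : Set E'), IsIntegral K x := by
    intro x hx
    rcases hx with rfl | hx
    · exact ⟨f, hf, by rw [← eval_map, hφ]; exact ha⟩
    · rw [Set.mem_singleton_iff] at hx
      subst hx
      exact ⟨f, hf, by rw [← eval_map, hφ]; exact hb⟩
  obtain ⟨L, hL⟩ : ∃ L : IntermediateField K E', L = IntermediateField.adjoin K ({a, b} : Set E') :=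
    ⟨_, rfl⟩
  have halg : Algebra.IsAlgebraic K L := by
    rw [hL]
    exact IntermediateField.isAlgebraic_adjoin hint
  have haL : a ∈ L := by
    rw [hL]
    exact IntermediateField.subset_adjoin K _ (by simp)
  have hbL : b ∈ L := by
    rw [hL]
    exact IntermediateField.subset_adjoin K _ (by simp)
  let g : L →ₐ[K] E := IsAlgClosed.lift
  obtain ⟨a', ha'⟩ : ∃ a' : L, a' = ⟨a, haL⟩ := ⟨_, rfl⟩
  obtain ⟨b', hb'⟩ : ∃ b' : L, b' = ⟨b, hbL⟩ := ⟨_, rfl⟩
  have hav : algebraMap L E' a' = a := by rw [ha']; rfl
  have hbv : algebraMap L E' b' = b := by rw [hb']; rfl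
  have hcomp : (algebraMap L E').comp (algebraMap K L) = φ := by
    rw [← IsScalarTower.algebraMap_eq]
    exact hφ
  have hcompg : (g : L →+* E).comp (algebraMap K L) = ψ := by
    rw [AlgHom.comp_algebraMap]
    exact hψ
  have hinj : Function.Injective (algebraMap L E') := (algebraMap L E').injective
  have root : ∀ (x : E') (x' : L), algebraMap L E' x' = x → (f.map φ).IsRoot x →
      (f.map ψ).IsRoot (g x') := by
    intro x x' hxx hr
    have h1 : (f.map (algebraMap K L)).eval x' = 0 := by
      apply hinj
      rw [map_zero, ← Polynomial.eval_map_apply, Polynomial.map_map, hcomp, hxx]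
      exact hr
    have h2 : (f.map ψ).eval (g x') = 0 := by
      rw [← hcompg, ← Polynomial.map_map]
      have h3 := Polynomial.eval_map_apply (f := (g : L →+* E)) (p := f.map (algebraMap K L)) x'
      rw [h1, map_zero] at h3
      exact h3
    exact h2
  have hne : g a' ≠ g b' := by
    intro he
    have := g.injective he
    apply hab
    rw [← hav, ← hbv, this]
  refine h (g a') (g b') (root a a' hav ha) (root b b' hbv hb) hne ?_
  have e1 : tau (f.map φ) a b (fun i => φ (kum f A B i)) =
      algebraMap L E' (tau (f.map (algebraMap K L)) a' b'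
        (fun i => algebraMap K L (kum f A B i))) := by
    rw [← tau_map, Polynomial.map_map, hcomp, hav, hbv]
    rfl
  have e2 : tau (f.map ψ) (g a') (g b') (fun i => ψ (kum f A B i)) =
      (g : L →+* E) (tau (f.map (algebraMap K L)) a' b'
        (fun i => algebraMap K L (kum f A B i))) := by
    rw [← tau_map, Polynomial.map_map, hcompg]
    congr 1
    funext i
    rw [← hcompg]
    rfl
  rw [e1] at htau
  have e3 : tau (f.map (algebraMap K L)) a' b' (fun i => algebraMap K L (kum f A B i)) = 0 := by
    apply hinj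
    rw [htau, map_zero]
  rw [e2, e3, map_zero]

end Pool.Agent.KDT.H45
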